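import Pool.Agent.Y408.OC.Potential

set_option autoImplicit false

/-!
The auxiliary flows and the orientable five cycle double cover.
-/

namespace Pool.Agent.Y408.OC

open Finset
open Pool.Agent.TH505.OCDC Pool.Agent.TH505.SC
open Pool.Agent.Helper879.ECD (F2 IsFlow f2_add_self f2_cases)

variable {V ι : Type}

/-- the sign of an element of the field with two elements -/
def sg (x : F2) : ℤ := if x = 0 then 1 else -1

lemma sg_pm (x : F2) : sg x = 1 ∨ sg x = -1 := by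
  unfold sg; split_ifs <;> simp

lemma sg_add : ∀ x y : F2, sg (x + y) = sg x * sg y := by decide

lemma sg_ne : ∀ x y : F2, x + y = 1 → sg x = - sg y := by decide

lemma sg_nat (k : ℕ) : sg (k : F2) = (-1) ^ k := by
  induction k with
  | zero => simp [sg]
  | succ k ih =>
    rw [Nat.cast_succ, sg_add, ih, pow_succ]
    congr 1

lemma T_eq_sg (x : F2) (a : ℕ → ℕ) (t k : ℕ) : T (sg x) a t k = sg (x + (cn a t k : F2)) := by
  unfold T
  rw [sg_add, sg_nat]

/-- sum of circuit functions -/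
noncomputable def cfS (n : ι → ℕ) (q : ι → ℕ → V) (S : Finset ι) (s : ι → ℕ → ℤ) (u v : V) : ℤ :=
  ∑ j ∈ S, cf (n j) (q j) (s j) u v

lemma cfS_anti (n : ι → ℕ) (q : ι → ℕ → V) (S : Finset ι) (s : ι → ℕ → ℤ) (u v : V) :
    cfS n q S s v u = - cfS n q S s u v := by
  unfold cfS
  rw [← Finset.sum_neg_distrib]
  exact Finset.sum_congr rfl (fun j _ => cf_anti _ _ _ _ _)

lemma cfS_zero {n : ι → ℕ} {q : ι → ℕ → V} {S : Finset ι} {s : ι → ℕ → ℤ} {u v : V}
    (h : ∀ j ∈ S, ¬ CE (q j) u v) : cfS n q S s u v = 0 :=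
  Finset.sum_eq_zero (fun j hj => cf_zero (h j hj))

section
variable [Fintype V] {G : SimpleGraph V} {n : ι → ℕ} {q f : ι → ℕ → V}
  (hs : Sys G n q f)
include hs

lemma Sys.cfS_on {S : Finset ι} {s : ι → ℕ → ℤ} {j : ι} (hj : j ∈ S) (i : ℕ) (w : V) :
    cfS n q S s (q j i) w = cf (n j) (q j) (s j) (q j i) w := by
  unfold cfS
  rw [Finset.sum_eq_single j]
  · intro j' _ hne
    exact cf_zero (fun h => hne (hs.ce_idx h))
  · intro h; exact absurd hj h

lemma Sys.cfS_sum {S : Finset ι} {s : ι → ℕ → ℤ} {j : ι} (hj : j ∈ S) {k : ℕ} (hk : k < n j) :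
    ∑ w, cfS n q S s (q j k) w = s j k - s j (pv (n j) k) := by
  rw [Finset.sum_congr rfl (fun w _ => hs.cfS_on hj k w), cf_sum (hs.circ j) _ hk]

omit hs in
lemma cfS_sum_off {S : Finset ι} {s : ι → ℕ → ℤ} {v : V} (hv : ∀ j ∈ S, ∀ i, v ≠ q j i) :
    ∑ w, cfS n q S s v w = 0 := by
  apply Finset.sum_eq_zero
  intro w _
  apply cfS_zero
  rintro j hj ⟨i, ⟨h1, _⟩ | ⟨h1, _⟩⟩
  · exact hv j hj _ h1
  · exact hv j hj _ h1

/-- One of the three auxiliary flows. -/
theorem Sys.aux_flow {S : Finset ι} {c : Sym2 V → ℕ} (hv : Valid G n q f S c) {t : ℕ}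
    (ht : t < 3) (x : ι → F2)
    (hx : ∀ j ∈ S, ∀ i, i < n j → Wd n q f c j i ≠ t → ∀ j' ∈ S, ∀ i', i' < n j' →
      Wd n q f c j' i' ≠ t → q j i ≠ q j' i' →
      (Jg (OffS G q S) c t).Reachable (q j i) (q j' i') →
      (x j + (cn (Wd n q f c j) t i : F2)) + (x j' + (cn (Wd n q f c j') t i' : F2)) = 1) :
    ∃ P : V → V → ℤ, (∀ u v, P v u = - P u v) ∧ (∀ u, ∑ w, P u w = 0) ∧
      (∀ j ∈ S, ∀ k, k < n j → P (q j k) (q j (k + 1)) = T (sg (x j)) (Wd n q f c j) t (k + 1)) ∧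
      (∀ u v, (OffS G q S).Adj u v → c s(u, v) ≠ t → P u v = 2 ∨ P u v = -2) ∧
      (∀ u v, (OffS G q S).Adj u v → c s(u, v) = t → P u v = 0) ∧
      (∀ u v, ¬ G.Adj u v → P u v = 0) := by
  classical
  let J := Jg (OffS G q S) c t
  have hdeg0 : ∀ v, ((∀ j ∈ S, ∀ i, v ≠ q j i) ∧ (nb J v).card = 2) ∨
      ∃ j ∈ S, ∃ i, i < n j ∧ v = q j i ∧ ((Wd n q f c j i ≠ t ∧ (nb J v).card = 1) ∨
      (Wd n q f c j i = t ∧ (nb J v).card = 0)) := fun v => hs.deg_cases hv.1 ht v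
  have h2 : ∀ v, (nb J v).card ≤ 2 := by
    intro v
    rcases hdeg0 v with ⟨_, h⟩ | ⟨j, _, i, _, _, ⟨_, h⟩ | ⟨_, h⟩⟩ <;> omega
  obtain ⟨y, y1, y2, y3⟩ := exists_partner J h2
  let e : ι → ℕ → ℤ := fun j i => if Wd n q f c j i ≠ t then T (sg (x j)) (Wd n q f c j) t i else 0
  obtain ⟨ε, ε1, ε2⟩ := hs.exists_fun S e 0
  have e_pos : ∀ j i, Wd n q f c j i ≠ t → e j i = T (sg (x j)) (Wd n q f c j) t i :=
    fun j i h => if_pos h
  have e_neg : ∀ j i, Wd n q f c j i = t → e j i = 0 := fun j i h => if_neg (fun h' => h' h)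
  have hdeg : ∀ v, (ε v = 0 ∧ ((nb J v).card = 0 ∨ (nb J v).card = 2)) ∨
      ((ε v = 1 ∨ ε v = -1) ∧ (nb J v).card = 1) := by
    intro v
    rcases hdeg0 v with ⟨h1, h3⟩ | ⟨j, hj, i, hi, hvi, ⟨h1, h3⟩ | ⟨h1, h3⟩⟩
    · exact Or.inl ⟨ε2 v h1, Or.inr h3⟩
    · right
      refine ⟨?_, h3⟩
      rw [hvi, ε1 j hj i hi, e_pos j i h1]
      exact T_pm (sg_pm _) _ _ _
    · left
      refine ⟨?_, Or.inl h3⟩
      rw [hvi, ε1 j hj i hi, e_neg j i h1]
  have hpair : ∀ v, (nb J v).card = 1 → ε v + ε (y v) = 0 := by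
    intro v hl
    obtain ⟨a1, a2, a3, _⟩ := y3 v hl
    rcases hdeg0 v with ⟨h1, h3⟩ | ⟨j, hj, i, hi, hvi, ⟨h1, h3⟩ | ⟨h1, h3⟩⟩
    · omega
    · rcases hdeg0 (y v) with ⟨h1', h3'⟩ | ⟨j', hj', i', hi', hvi', ⟨h1', h3'⟩ | ⟨h1', h3'⟩⟩
      · omega
      · have h5 := hx j hj i hi h1 j' hj' i' hi' h1' (by
          rw [← hvi, ← hvi']; exact a1.symm) (by
          rw [← hvi, ← hvi']; exact a3)
        rw [hvi', ε1 j' hj' i' hi', e_pos j' i' h1', hvi, ε1 j hj i hi, e_pos j i h1,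
          T_eq_sg, T_eq_sg, sg_ne _ _ h5]
        ring
      · omega
    · omega
  have hclosed : ∀ K : Finset V, (∀ u v, J.Adj u v → u ∈ K → v ∈ K) → ∑ v ∈ K, ε v = 0 := by
    intro K hK
    have hKr : ∀ u v, J.Reachable u v → u ∈ K → v ∈ K := by
      intro u v huv
      obtain ⟨p⟩ := huv
      induction p with
      | nil => exact fun h => h
      | cons h _ ih => exact fun hu => ih (hK _ _ h hu)
    apply Finset.sum_involution (fun v _ => y v)
    · intro v _
      by_cases hl : (nb J v).card = 1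
      · exact hpair v hl
      · rw [y2 v hl]
        rcases hdeg v with h | h
        · rw [h.1]; norm_num
        · exact absurd h.2 hl
    · intro v _ hne
      by_cases hl : (nb J v).card = 1
      · exact (y3 v hl).1
      · exfalso
        rcases hdeg v with h | h
        · exact hne h.1
        · exact hl h.2
    · intro v hvK
      by_cases hl : (nb J v).card = 1
      · exact hKr _ _ (y3 v hl).2.2.1 hvK
      · rw [y2 v hl]; exact hvK
    · intro v _
      exact y1 v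
  obtain ⟨θ, t1, t2, t3, t4⟩ := leaf_flow _ J ε rfl hdeg hclosed
  let s : ι → ℕ → ℤ := fun j i => T (sg (x j)) (Wd n q f c j) t (i + 1)
  refine ⟨fun u v => cfS n q S s u v + 2 * θ u v, ?_, ?_, ?_, ?_, ?_, ?_⟩
  · intro u v
    show cfS n q S s v u + 2 * θ v u = - (cfS n q S s u v + 2 * θ u v)
    rw [cfS_anti, t1 u v]; ring
  · intro u
    show ∑ w, (cfS n q S s u w + 2 * θ u w) = 0
    rw [Finset.sum_add_distrib, ← Finset.mul_sum, t4 u]
    rcases hdeg0 u with ⟨h1, _⟩ | ⟨j, hj, k, hk, huk, _⟩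
    · rw [cfS_sum_off h1, ε2 u h1]; ring
    · have hprev : s j (pv (n j) k) = T (sg (x j)) (Wd n q f c j) t k := by
        show T (sg (x j)) (Wd n q f c j) t (pv (n j) k + 1) = _
        unfold pv
        split_ifs with h0
        · have h3 := (hs.circ j).three
          rw [h0, show n j - 1 + 1 = n j by omega]
          unfold T
          have : Even (cn (Wd n q f c j) t (n j)) := Nat.even_iff.2 (hv.2 j hj t ht)
          rw [this.neg_one_pow]
          simp [cn]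
        · rw [show k - 1 + 1 = k by omega]
      have hcur : s j k = T (sg (x j)) (Wd n q f c j) t (k + 1) := rfl
      rw [huk, hs.cfS_sum hj hk, ε1 j hj k hk, hprev, hcur]
      by_cases h4 : Wd n q f c j k = t
      · rw [e_neg j k h4, T_succ_eq h4]; ring
      · rw [e_pos j k h4, T_succ_ne h4]; ring
  · intro j hj k hk
    show cfS n q S s (q j k) (q j (k + 1)) + 2 * θ (q j k) (q j (k + 1)) = _
    rw [hs.cfS_on hj, cf_val (hs.circ j) _ hk, t3, mul_zero, add_zero]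
    intro h
    exact h.1.2 j hj ⟨k, Or.inl ⟨rfl, rfl⟩⟩
  · intro u v huv hcj
    show cfS n q S s u v + 2 * θ u v = 2 ∨ cfS n q S s u v + 2 * θ u v = -2
    rw [cfS_zero huv.2]
    rcases t2 u v ⟨huv, hcj⟩ with h | h <;> rw [h] <;> norm_num
  · intro u v huv hcj
    show cfS n q S s u v + 2 * θ u v = 0
    rw [cfS_zero huv.2, t3 u v (fun h => h.2 hcj)]; norm_num
  · intro u v huv
    show cfS n q S s u v + 2 * θ u v = 0
    rw [cfS_zero, t3 u v (fun h => huv h.1.1)]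
    · norm_num
    · intro j _ h
      obtain ⟨k, _, ⟨h1, h2⟩ | ⟨h1, h2⟩⟩ := (hs.circ j).ce_cases h
      · apply huv; rw [h1, h2]; exact (hs.circ j).adj k
      · apply huv; rw [h1, h2]; exact ((hs.circ j).adj k).symm

/-- A valid colouring gives an orientable five cycle double cover. -/
theorem Sys.five_of_valid [Fintype ι] {S : Finset ι} {c : Sym2 V → ℕ}
    (hv0 : Valid G n q f S c) : ∃ g, Five G g := by
  classical
  obtain ⟨S, c, hv, hmin⟩ := hs.minimal hv0
  obtain ⟨x0, hx0⟩ := hs.potential hv hmin (t := 0) (by norm_num)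
  obtain ⟨x1, hx1⟩ := hs.potential hv hmin (t := 1) (by norm_num)
  obtain ⟨x2, hx2⟩ := hs.potential hv hmin (t := 2) (by norm_num)
  obtain ⟨P0, a0, s0, k0, b0, z0, w0⟩ := hs.aux_flow hv (t := 0) (by norm_num) x0 hx0
  obtain ⟨P1, a1, s1, k1, b1, z1, w1⟩ := hs.aux_flow hv (t := 1) (by norm_num) x1 hx1
  obtain ⟨P2, a2, s2, k2, b2, z2, w2⟩ := hs.aux_flow hv (t := 2) (by norm_num) x2 hx2
  have hCEadj : ∀ j u v, CE (q j) u v → G.Adj u v := by
    intro j u v h
    obtain ⟨k, _, ⟨h1, h2⟩ | ⟨h1, h2⟩⟩ := (hs.circ j).ce_cases h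
    · rw [h1, h2]; exact (hs.circ j).adj k
    · rw [h1, h2]; exact ((hs.circ j).adj k).symm
  let r : ι → ℕ → ℤ := fun j _ => - (sg (x0 j) * sg (x1 j) * sg (x2 j))
  refine ⟨_, assemble G (cfS n q S r) P0 P1 P2 (cfS_anti n q S r) a0 a1 a2 ?_ s0 s1 s2 ?_
    (fun u v huv => ⟨cfS_zero (fun j _ h => huv (hCEadj j u v h)), w0 u v huv, w1 u v huv,
      w2 u v huv⟩)⟩
  · intro u
    by_cases h : ∃ j ∈ S, ∃ i, u = q j i
    · obtain ⟨j, hj, i, hi⟩ := h
      have hi' : u = q j (i % n j) := by rw [hi]; exact (hs.circ j).q_mod i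
      have hk : i % n j < n j := Nat.mod_lt _ (hs.circ j).pos
      rw [hi', hs.cfS_sum hj hk]
      exact sub_self (r j 0)
    · push Not at h
      exact cfS_sum_off h
  · intro u v huv
    by_cases hce : ∃ j ∈ S, CE (q j) u v
    · obtain ⟨j, hj, hce⟩ := hce
      obtain ⟨k, hk, h⟩ := (hs.circ j).ce_cases hce
      set a := Wd n q f c j with ha
      have hsum := cn_sum a (k + 1) (fun i hi => (hs.word hv.1 hj).1 i (by omega))
      have hprod : ((-1 : ℤ) ^ cn a 0 (k + 1)) * ((-1) ^ cn a 1 (k + 1)) *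
          ((-1) ^ cn a 2 (k + 1)) = 1 := by
        rw [← pow_add, ← pow_add, hsum, pow_mul]
        norm_num
      have v0 : P0 (q j k) (q j (k + 1)) = sg (x0 j) * (-1) ^ cn a 0 (k + 1) := k0 j hj k hk
      have v1 : P1 (q j k) (q j (k + 1)) = sg (x1 j) * (-1) ^ cn a 1 (k + 1) := k1 j hj k hk
      have v2 : P2 (q j k) (q j (k + 1)) = sg (x2 j) * (-1) ^ cn a 2 (k + 1) := k2 j hj k hk
      have vX : cfS n q S r (q j k) (q j (k + 1)) = - (sg (x0 j) * sg (x1 j) * sg (x2 j)) := by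
        rw [hs.cfS_on hj, cf_val (hs.circ j) _ hk]
      have main : Loc (cfS n q S r (q j k) (q j (k + 1))) (P0 (q j k) (q j (k + 1)))
          (P1 (q j k) (q j (k + 1))) (P2 (q j k) (q j (k + 1))) ∧
          Loc (cfS n q S r (q j (k + 1)) (q j k)) (P0 (q j (k + 1)) (q j k))
          (P1 (q j (k + 1)) (q j k)) (P2 (q j (k + 1)) (q j k)) := by
        rw [cfS_anti n q S r (q j k) (q j (k + 1)), a0 (q j k) (q j (k + 1)),
          a1 (q j k) (q j (k + 1)), a2 (q j k) (q j (k + 1)), v0, v1, v2, vX]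
        rcases sg_pm (x0 j) with f0 | f0 <;> rcases sg_pm (x1 j) with f1 | f1 <;>
        rcases sg_pm (x2 j) with f2 | f2 <;>
        rcases neg_one_pow_eq_or ℤ (cn a 0 (k + 1)) with e0 | e0 <;>
        rcases neg_one_pow_eq_or ℤ (cn a 1 (k + 1)) with e1 | e1 <;>
        rcases neg_one_pow_eq_or ℤ (cn a 2 (k + 1)) with e2 | e2 <;>
        rw [e0, e1, e2] at hprod <;>
        first
        | (exfalso; norm_num at hprod; done)
        | (rw [f0, f1, f2, e0, e1, e2]; constructor <;> (left; norm_num))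
      rcases h with ⟨h1, h2⟩ | ⟨h1, h2⟩
      · rw [h1, h2]; exact main.1
      · rw [h1, h2]; exact main.2
    · right
      push Not at hce
      have hoff : (OffS G q S).Adj u v := ⟨huv, hce⟩
      refine ⟨cfS_zero hce, ?_⟩
      have hlt := hv.1.lt u v hoff
      have hcase : c s(u, v) = 0 ∨ c s(u, v) = 1 ∨ c s(u, v) = 2 := by omega
      rcases hcase with h | h | h
      · exact Or.inl ⟨z0 u v hoff h, b1 u v hoff (by omega), b2 u v hoff (by omega)⟩
      · exact Or.inr (Or.inl ⟨z1 u v hoff h, b0 u v hoff (by omega), b2 u v hoff (by omega)⟩)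
      · exact Or.inr (Or.inr ⟨z2 u v hoff h, b0 u v hoff (by omega), b1 u v hoff (by omega)⟩)

end

end Pool.Agent.Y408.OC
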