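import Pool.Agent.TH505.SC.Check

set_option autoImplicit false

/-!
The finite part: switching a colour word around a circuit of length at most five.
-/

namespace Pool.Agent.Y408.OC

open Pool.Agent.TH505.SC

/-- the word after a switch of the two colours different from `t` at the positions in `U` -/
def swp (a : ℕ → ℕ) (t : ℕ) (U : ℕ → Bool) : ℕ → ℕ :=
  fun x => bif (U x && !(a x == t)) then 3 - t - a x else a x

/-- number of switched positions below `i` -/
def cU (a : ℕ → ℕ) (t : ℕ) (U : ℕ → Bool) : ℕ → ℕ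
  | 0 => 0
  | i + 1 => cU a t U i + bif (U i && !(a i == t)) then 1 else 0

/-- sum of the ranks of the switched positions below `i` -/
def sU (a : ℕ → ℕ) (t : ℕ) (U : ℕ → Bool) : ℕ → ℕ
  | 0 => 0
  | i + 1 => sU a t U i + bif (U i && !(a i == t)) then cn a t i else 0

def par (n : ℕ) (a : ℕ → ℕ) : Bool :=
  (cn a 0 n % 2 == 0) && ((cn a 1 n % 2 == 0) && (cn a 2 n % 2 == 0))

/-- all boolean lists of length `n` satisfy `P` -/
def allB : ℕ → (List Bool → Bool) → Bool
  | 0, P => P []
  | n + 1, P => allB n (fun l => P (true :: l)) && allB n (fun l => P (false :: l))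

lemma allB_sound : ∀ (n : ℕ) (P : List Bool → Bool), allB n P = true →
    ∀ l : List Bool, l.length = n → P l = true := by
  intro n
  induction n with
  | zero =>
    intro P h l hl
    rw [List.length_eq_zero_iff] at hl
    rw [hl]
    exact h
  | succ n ih =>
    intro P h l hl
    cases l with
    | nil => simp at hl
    | cons x l =>
      simp only [allB, Bool.and_eq_true] at h
      have hl' : l.length = n := by simpa using hl
      cases x with
      | true => exact ih _ h.1 l hl'
      | false => exact ih _ h.2 l hl'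

/-- the function of a boolean list -/
def bf (l : List Bool) : ℕ → Bool := fun i => l.getD i false

/-- parity is kept, and two words without extension differ by an untwisted switch -/
def chkT (n t : ℕ) (a : ℕ → ℕ) (U : ℕ → Bool) : Bool :=
  bif par n a && (cU a t U n % 2 == 0) then
    par n (swp a t U) &&
      (ext n a || (ext n (swp a t U) || ((sU a t U n + cU a t U n / 2) % 2 == 0)))
  else true

def chkA (n : ℕ) : Bool :=
  allW n (fun l => allB n (fun m => chkT n 0 (wf l) (bf m) &&
    (chkT n 1 (wf l) (bf m) && chkT n 2 (wf l) (bf m))))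

theorem a3 : chkA 3 = true := by decide +kernel
theorem a4 : chkA 4 = true := by decide +kernel
theorem a5 : chkA 5 = true := by decide +kernel

lemma eq_bf {n : ℕ} {U : ℕ → Bool} (h : ∀ i, n ≤ i → U i = false) :
    ∃ m : List Bool, m.length = n ∧ U = bf m := by
  refine ⟨List.ofFn (fun i : Fin n => U i), by simp, ?_⟩
  funext i
  unfold bf
  by_cases hi : i < n
  · rw [List.getD_eq_getElem _ _ (by simpa using hi)]
    simp
  · rw [List.getD_eq_default _ _ (by simpa using hi)]
    exact h i (by omega)

lemma chkA_all {n : ℕ} (h3 : 3 ≤ n) (h5 : n ≤ 5) : chkA n = true := by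
  interval_cases n
  · exact a3
  · exact a4
  · exact a5

lemma chkT_all {n : ℕ} (h3 : 3 ≤ n) (h5 : n ≤ 5) {a : ℕ → ℕ} (ha : IsWord n a) {t : ℕ}
    (ht : t < 3) {U : ℕ → Bool} (hU : ∀ i, n ≤ i → U i = false) : chkT n t a U = true := by
  obtain ⟨l, hl1, hl2, rfl⟩ := ha.eq_wf
  obtain ⟨m, hm1, rfl⟩ := eq_bf hU
  have h1 := allB_sound n _ (allW_sound n _ (chkA_all h3 h5) l hl1 hl2) m hm1
  simp only [Bool.and_eq_true] at h1
  interval_cases t
  · exact h1.1
  · exact h1.2.1
  · exact h1.2.2

/-- all three parities are even -/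
def Par (n : ℕ) (a : ℕ → ℕ) : Prop := ∀ s, s < 3 → cn a s n % 2 = 0

lemma par_iff (n : ℕ) (a : ℕ → ℕ) : par n a = true ↔ Par n a := by
  unfold par Par
  simp only [Bool.and_eq_true, beq_iff_eq]
  constructor
  · rintro ⟨h0, h1, h2⟩ s hs
    interval_cases s
    · exact h0
    · exact h1
    · exact h2
  · intro h
    exact ⟨h 0 (by norm_num), h 1 (by norm_num), h 2 (by norm_num)⟩

theorem par_swp {n : ℕ} (h3 : 3 ≤ n) (h5 : n ≤ 5) {a : ℕ → ℕ} (ha : IsWord n a) {t : ℕ}
    (ht : t < 3) {U : ℕ → Bool} (hU : ∀ i, n ≤ i → U i = false) (hp : Par n a)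
    (hc : cU a t U n % 2 = 0) : Par n (swp a t U) := by
  have h := chkT_all h3 h5 ha ht hU
  unfold chkT at h
  have e : (par n a && (cU a t U n % 2 == 0)) = true := by
    rw [Bool.and_eq_true, par_iff, beq_iff_eq]
    exact ⟨hp, hc⟩
  rw [e] at h
  simp only [cond_true, Bool.and_eq_true] at h
  exact (par_iff _ _).1 h.1

theorem twist {n : ℕ} (h3 : 3 ≤ n) (h5 : n ≤ 5) {a : ℕ → ℕ} (ha : IsWord n a) {t : ℕ}
    (ht : t < 3) {U : ℕ → Bool} (hU : ∀ i, n ≤ i → U i = false) (hp : Par n a)
    (hc : cU a t U n % 2 = 0) (he : ext n a = false) (he' : ext n (swp a t U) = false) :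
    (sU a t U n + cU a t U n / 2) % 2 = 0 := by
  have h := chkT_all h3 h5 ha ht hU
  unfold chkT at h
  have e : (par n a && (cU a t U n % 2 == 0)) = true := by
    rw [Bool.and_eq_true, par_iff, beq_iff_eq]
    exact ⟨hp, hc⟩
  rw [e] at h
  simp only [cond_true, Bool.and_eq_true, he, he', Bool.false_or, beq_iff_eq] at h
  exact h.2

end Pool.Agent.Y408.OC
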