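import Pool.Agent.TH505.SC.Final
import Pool.Agent.Y408.OC.Words

set_option autoImplicit false

/-!
Several disjoint circuits in a cubic graph.
-/

namespace Pool.Agent.Y408.OC

open Finset
open Pool.Agent.TH505.OCDC Pool.Agent.TH505.SC

variable {V ι : Type}

/-- disjoint short circuits `q j` of a cubic graph, `f j i` is the third neighbour of `q j i` -/
structure Sys [Fintype V] (G : SimpleGraph V) (n : ι → ℕ) (q f : ι → ℕ → V) : Prop where
  three : ∀ v, (nb G v).card = 3
  circ : ∀ j, Circ G (n j) (q j)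
  five : ∀ j, n j ≤ 5
  disj : ∀ j j' a b, q j a = q j' b → j = j'
  third : ∀ j i, nb (Off G (q j)) (q j i) = {f j i}

/-- the graph without the edges of the circuits in `S` -/
def OffS (G : SimpleGraph V) (q : ι → ℕ → V) (S : Finset ι) : SimpleGraph V where
  Adj u v := G.Adj u v ∧ ∀ j ∈ S, ¬ CE (q j) u v
  symm := ⟨fun _ _ h => ⟨h.1.symm, fun j hj h' => h.2 j hj h'.symm⟩⟩
  loopless := ⟨fun _ h => h.1.ne rfl⟩

lemma offS_adj {G : SimpleGraph V} {q : ι → ℕ → V} {S : Finset ι} {u v : V} :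
    (OffS G q S).Adj u v ↔ G.Adj u v ∧ ∀ j ∈ S, ¬ CE (q j) u v := Iff.rfl

/-- colour word of the circuit `j` -/
noncomputable def Wd (n : ι → ℕ) (q f : ι → ℕ → V) (c : Sym2 V → ℕ) (j : ι) : ℕ → ℕ :=
  W (n j) (q j) (f j) c

/-- a proper colouring off the circuits in `S` with the right parities -/
def Valid (G : SimpleGraph V) (n : ι → ℕ) (q f : ι → ℕ → V) (S : Finset ι)
    (c : Sym2 V → ℕ) : Prop :=
  Col (OffS G q S) c ∧ ∀ j ∈ S, Par (n j) (Wd n q f c j)

/-- Switching the two colours different from `t` on a closed set. -/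
theorem switch_col {H : SimpleGraph V} {c : Sym2 V → ℕ} (hc : Col H c) {t : ℕ} (ht : t < 3)
    (K : V → Prop) (hK : ∀ u v, (Jg H c t).Adj u v → K u → K v) :
    ∃ c' : Sym2 V → ℕ, Col H c' ∧ (∀ u v, H.Adj u v → K u → c s(u, v) ≠ t →
      c' s(u, v) = 3 - t - c s(u, v)) ∧ (∀ u v, H.Adj u v → ¬ (K u ∧ c s(u, v) ≠ t) →
      c' s(u, v) = c s(u, v)) := by
  classical
  let c' : Sym2 V → ℕ := fun e => if c e ≠ t ∧ ∀ x ∈ e, K x then 3 - t - c e else c e
  have hval : ∀ u v, H.Adj u v →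
      c' s(u, v) = if K u ∧ c s(u, v) ≠ t then 3 - t - c s(u, v) else c s(u, v) := by
    intro u v huv
    have e1 : (c s(u, v) ≠ t ∧ ∀ x ∈ s(u, v), K x) ↔ (K u ∧ c s(u, v) ≠ t) := by
      constructor
      · intro h
        exact ⟨h.2 u (Sym2.mem_mk_left u v), h.1⟩
      · intro h
        refine ⟨h.2, ?_⟩
        intro x hx
        rw [Sym2.mem_iff] at hx
        rcases hx with rfl | rfl
        · exact h.1
        · exact hK u x ⟨huv, h.2⟩ h.1
    show (if c s(u, v) ≠ t ∧ ∀ x ∈ s(u, v), K x then 3 - t - c s(u, v) else c s(u, v)) = _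
    rw [if_congr e1 rfl rfl]
  refine ⟨c', ⟨?_, ?_⟩, ?_, ?_⟩
  · intro u v huv
    rw [hval u v huv]
    have := hc.lt u v huv
    split_ifs with h
    · have := h.2; omega
    · exact this
  · intro u v w huv huw hvw
    rw [hval u v huv, hval u w huw]
    have e1 := hc.lt u v huv
    have e2 := hc.lt u w huw
    have e3 := hc.proper u v w huv huw hvw
    by_cases hK : K u
    · by_cases h1 : c s(u, v) ≠ t <;> by_cases h2 : c s(u, w) ≠ t <;>
        simp only [hK, h1, h2, true_and, if_true, if_false, ne_eq,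
          not_false_eq_true] <;> omega
    · simp only [hK, false_and, if_false]
      exact e3
  · intro u v huv hKu h
    rw [hval u v huv, if_pos ⟨hKu, h⟩]
  · intro u v huv h
    rw [hval u v huv, if_neg h]

section
variable [Fintype V] {G : SimpleGraph V} {n : ι → ℕ} {q f : ι → ℕ → V} (hs : Sys G n q f)
include hs

lemma Sys.ce_idx {j j' : ι} {i : ℕ} {w : V} (h : CE (q j') (q j i) w) : j' = j := by
  obtain ⟨k, ⟨h1, _⟩ | ⟨h1, _⟩⟩ := h
  · exact (hs.disj _ _ _ _ h1).symm
  · exact (hs.disj _ _ _ _ h1).symm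

lemma Sys.nb_on {S : Finset ι} {j : ι} (hj : j ∈ S) (i : ℕ) :
    nb (OffS G q S) (q j i) = {f j i} := by
  rw [← hs.third j i]
  ext w
  rw [mem_nb, mem_nb, offS_adj, off_adj]
  constructor
  · exact fun h => ⟨h.1, h.2 j hj⟩
  · rintro ⟨h1, h2⟩
    refine ⟨h1, ?_⟩
    intro j' _ h3
    have := hs.ce_idx h3
    rw [this] at h3
    exact h2 h3

omit hs in
lemma nb_offS {S : Finset ι} {v : V} (h : ∀ j ∈ S, ∀ i, v ≠ q j i) :
    nb (OffS G q S) v = nb G v := by
  ext w
  rw [mem_nb, mem_nb, offS_adj]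
  constructor
  · exact fun h' => h'.1
  · intro h1
    refine ⟨h1, ?_⟩
    rintro j hj ⟨i, ⟨h2, _⟩ | ⟨h2, _⟩⟩
    · exact h j hj _ h2
    · exact h j hj _ h2

lemma Sys.adj_f {S : Finset ι} {j : ι} (hj : j ∈ S) (i : ℕ) :
    (OffS G q S).Adj (q j i) (f j i) := by
  rw [← mem_nb, hs.nb_on hj i]
  simp

lemma Sys.word {S : Finset ι} {c : Sym2 V → ℕ} (hc : Col (OffS G q S) c) {j : ι} (hj : j ∈ S) :
    IsWord (n j) (Wd n q f c j) := by
  constructor
  · intro i hi
    unfold Wd W
    rw [if_pos hi]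
    exact hc.lt _ _ (hs.adj_f hj i)
  · intro i hi
    unfold Wd W
    rw [if_neg (by omega)]

lemma Sys.deg_cases {S : Finset ι} {c : Sym2 V → ℕ} (hc : Col (OffS G q S) c) {t : ℕ}
    (ht : t < 3) (v : V) :
    ((∀ j ∈ S, ∀ i, v ≠ q j i) ∧ (nb (Jg (OffS G q S) c t) v).card = 2) ∨
    ∃ j ∈ S, ∃ i, i < n j ∧ v = q j i ∧
      ((Wd n q f c j i ≠ t ∧ (nb (Jg (OffS G q S) c t) v).card = 1) ∨
      (Wd n q f c j i = t ∧ (nb (Jg (OffS G q S) c t) v).card = 0)) := by
  by_cases h : ∃ j ∈ S, ∃ i, v = q j i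
  · right
    obtain ⟨j, hj, i, hi⟩ := h
    have hi' : v = q j (i % n j) := by rw [hi]; exact (hs.circ j).q_mod i
    have hlt : i % n j < n j := Nat.mod_lt _ (hs.circ j).pos
    refine ⟨j, hj, i % n j, hlt, hi', ?_⟩
    by_cases hW : Wd n q f c j (i % n j) = t
    · right
      refine ⟨hW, ?_⟩
      rw [hi']
      unfold Wd W at hW
      rw [if_pos hlt] at hW
      exact jg_none (hs.nb_on hj _) hW
    · left
      refine ⟨hW, ?_⟩
      rw [hi']
      unfold Wd W at hW
      rw [if_pos hlt] at hW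
      exact jg_single (hs.nb_on hj _) hW
  · left
    push Not at h
    refine ⟨h, jg_card3 hc ht ?_⟩
    rw [nb_offS h]
    exact hs.three v

lemma Sys.leaf {S : Finset ι} {c : Sym2 V → ℕ} {t : ℕ} {j : ι} (hj : j ∈ S) {i : ℕ}
    (hi : i < n j) (hW : Wd n q f c j i ≠ t) :
    (nb (Jg (OffS G q S) c t) (q j i)).card = 1 := by
  unfold Wd W at hW
  rw [if_pos hi] at hW
  exact jg_single (hs.nb_on hj _) hW

/-- functions on the vertices of the circuits in `S` -/
lemma Sys.exists_fun {α : Type} (S : Finset ι) (F : ι → ℕ → α) (d : α) :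
    ∃ r : V → α, (∀ j ∈ S, ∀ i, i < n j → r (q j i) = F j i) ∧
      ∀ v, (∀ j ∈ S, ∀ i, v ≠ q j i) → r v = d := by
  classical
  let P : V → Prop := fun v => ∃ p : ι × ℕ, p.1 ∈ S ∧ p.2 < n p.1 ∧ v = q p.1 p.2
  refine ⟨fun v => if h : P v then F (Classical.choose h).1 (Classical.choose h).2 else d, ?_, ?_⟩
  · intro j hj i hi
    have h : P (q j i) := ⟨(j, i), hj, hi, rfl⟩
    have h1 := Classical.choose_spec h
    simp only [dif_pos h]
    obtain ⟨h2, h3, h4⟩ := h1
    have e1 : (Classical.choose h).1 = j := (hs.disj _ _ _ _ h4).symm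
    generalize Classical.choose h = p at h2 h3 h4 e1
    obtain ⟨p1, p2⟩ := p
    simp only at h2 h3 h4 e1
    subst e1
    have e2 : i = p2 := (hs.circ _).inj _ _ hi h3 h4
    rw [e2]
  · intro v hv
    have h : ¬ P v := by
      rintro ⟨p, h1, _, h3⟩
      exact hv _ h1 _ h3
    simp only [dif_neg h]

/-- Switching a valid colouring. -/
theorem Sys.valid_switch {S : Finset ι} {c : Sym2 V → ℕ} (hv : Valid G n q f S c) {t : ℕ}
    (ht : t < 3) (K : V → Prop) (hK : ∀ u v, (Jg (OffS G q S) c t).Adj u v → K u → K v)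
    (U : ι → ℕ → Bool) (hU : ∀ j ∈ S, ∀ i, U j i = true ↔ i < n j ∧ K (q j i))
    (hpar : ∀ j ∈ S, cU (Wd n q f c j) t (U j) (n j) % 2 = 0) :
    ∃ c', Valid G n q f S c' ∧ ∀ j ∈ S, Wd n q f c' j = swp (Wd n q f c j) t (U j) := by
  obtain ⟨c', h1, h2, h3⟩ := switch_col hv.1 ht K hK
  have hW : ∀ j ∈ S, Wd n q f c' j = swp (Wd n q f c j) t (U j) := by
    intro j hj
    funext i
    unfold swp
    by_cases hi : i < n j
    · have e0 : Wd n q f c' j i = c' s(q j i, f j i) := by unfold Wd W; rw [if_pos hi]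
      have e1 : Wd n q f c j i = c s(q j i, f j i) := by unfold Wd W; rw [if_pos hi]
      have hadj := hs.adj_f hj i
      rw [e0, e1]
      by_cases hKi : K (q j i) ∧ c s(q j i, f j i) ≠ t
      · rw [h2 _ _ hadj hKi.1 hKi.2]
        have u1 : U j i = true := (hU j hj i).2 ⟨hi, hKi.1⟩
        have u2 : (c s(q j i, f j i) == t) = false := by simpa using hKi.2
        rw [u1, u2]
        rfl
      · rw [h3 _ _ hadj hKi]
        by_cases hk : K (q j i)
        · have u2 : (c s(q j i, f j i) == t) = true := by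
            have : c s(q j i, f j i) = t := by
              by_contra h
              exact hKi ⟨hk, h⟩
            simpa using this
          rw [u2]
          simp
        · have u1 : U j i = false := by
            rw [Bool.eq_false_iff]
            intro h
            exact hk ((hU j hj i).1 h).2
          rw [u1]
          simp
    · have e0 : Wd n q f c' j i = 0 := by unfold Wd W; rw [if_neg hi]
      have e1 : Wd n q f c j i = 0 := by unfold Wd W; rw [if_neg hi]
      have u1 : U j i = false := by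
        rw [Bool.eq_false_iff]
        intro h
        exact hi ((hU j hj i).1 h).1
      rw [e0, e1, u1]
      simp
  refine ⟨c', ⟨h1, ?_⟩, hW⟩
  intro j hj
  rw [hW j hj]
  apply par_swp (hs.circ j).three (hs.five j) (hs.word hv.1 hj) ht _ (hv.2 j hj) (hpar j hj)
  intro i hi
  rw [Bool.eq_false_iff]
  intro h
  have := ((hU j hj i).1 h).1
  omega

end

end Pool.Agent.Y408.OC
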