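import Pool.Agent.Y408.OC.Extend
import Pool.Agent.H126R2.CDC.Lift

set_option autoImplicit false

/-!
The signs of the circuits: linear algebra over the field with two elements.
-/

namespace Pool.Agent.Y408.OC

open Finset
open Pool.Agent.TH505.OCDC Pool.Agent.TH505.SC
open Pool.Agent.Helper879.ECD (F2 IsFlow f2_add_self f2_cases)
open Pool.Agent.H126R2.CDC (mem_cob_of_orth)

variable {V ι : Type}

/-- the other leaf of the component -/
lemma exists_partner [Fintype V] (J : SimpleGraph V) (h2 : ∀ v, (nb J v).card ≤ 2) :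
    ∃ y : V → V, (∀ v, y (y v) = v) ∧ (∀ v, (nb J v).card ≠ 1 → y v = v) ∧
      ∀ v, (nb J v).card = 1 → y v ≠ v ∧ (nb J (y v)).card = 1 ∧ J.Reachable v (y v) ∧
        ∀ z, (nb J z).card = 1 → J.Reachable v z → z = v ∨ z = y v := by
  classical
  have key : ∀ v, ∃ y, ((nb J v).card ≠ 1 → y = v) ∧
      ((nb J v).card = 1 → y ≠ v ∧ (nb J y).card = 1 ∧ J.Reachable v y ∧
        ∀ z, (nb J z).card = 1 → J.Reachable v z → z = v ∨ z = y) := by
    intro v
    by_cases h : (nb J v).card = 1
    · obtain ⟨y, hy⟩ := leaf_pair J h2 v h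
      exact ⟨y, fun h' => absurd h h', fun _ => hy⟩
    · exact ⟨v, fun _ => rfl, fun h' => absurd h' h⟩
  choose y hy1 hy2 using key
  refine ⟨y, ?_, hy1, hy2⟩
  intro v
  by_cases h : (nb J v).card = 1
  · obtain ⟨a1, a2, a3, a4⟩ := hy2 v h
    obtain ⟨b1, b2, b3, b4⟩ := hy2 (y v) a2
    rcases b4 v h a3.symm with h1 | h1
    · exact absurd h1.symm a1
    · exact h1.symm
  · rw [hy1 v h, hy1 v h]

lemma cU_card (a : ℕ → ℕ) (t : ℕ) (U : ℕ → Bool) (m : ℕ) :
    cU a t U m = ((range m).filter (fun i => U i = true ∧ a i ≠ t)).card := by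
  induction m with
  | zero => simp [cU]
  | succ m ih =>
    rw [Finset.range_add_one, Finset.filter_insert]
    by_cases h : U m = true ∧ a m ≠ t
    · rw [if_pos h, Finset.card_insert_of_notMem (by simp)]
      simp only [cU]
      rw [ih]
      have e1 : (a m == t) = false := by simpa using h.2
      rw [e1, h.1]
      rfl
    · rw [if_neg h]
      simp only [cU]
      rw [ih]
      have e1 : (U m && !(a m == t)) = false := by
        by_cases hU : U m = true
        · have : (a m == t) = true := by
            have : a m = t := by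
              by_contra h'
              exact h ⟨hU, h'⟩
            simpa using this
          rw [this]; simp
        · rw [Bool.not_eq_true] at hU
          rw [hU]; rfl
      rw [e1]
      rfl

lemma sU_sum (a : ℕ → ℕ) (t : ℕ) (U : ℕ → Bool) (m : ℕ) :
    sU a t U m = ∑ i ∈ (range m).filter (fun i => U i = true ∧ a i ≠ t), cn a t i := by
  induction m with
  | zero => simp [sU]
  | succ m ih =>
    rw [Finset.range_add_one, Finset.filter_insert]
    by_cases h : U m = true ∧ a m ≠ t
    · rw [if_pos h, Finset.sum_insert (by simp)]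
      simp only [sU]
      rw [ih]
      have e1 : (a m == t) = false := by simpa using h.2
      rw [e1, h.1]
      simp only [Bool.not_false, Bool.and_self, cond_true]
      ring
    · rw [if_neg h]
      simp only [sU]
      rw [ih]
      have e1 : (U m && !(a m == t)) = false := by
        by_cases hU : U m = true
        · have : (a m == t) = true := by
            have : a m = t := by
              by_contra h'
              exact h ⟨hU, h'⟩
            simpa using this
          rw [this]; simp
        · rw [Bool.not_eq_true] at hU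
          rw [hU]; rfl
      rw [e1]
      simp

lemma f2_ne {x y : F2} (h : x ≠ y) : x + y = 1 := by
  revert x y; decide

section
variable [Fintype V] [Fintype ι] {G : SimpleGraph V} {n : ι → ℕ} {q f : ι → ℕ → V}
  (hs : Sys G n q f)
include hs

/-- The signs exist. -/
theorem Sys.potential {S : Finset ι} {c : Sym2 V → ℕ} (hv : Valid G n q f S c)
    (hmin : ∀ c', Valid G n q f S c' → ∀ j ∈ S, ext (n j) (Wd n q f c' j) = false) {t : ℕ}
    (ht : t < 3) :
    ∃ x : ι → F2, ∀ j ∈ S, ∀ i, i < n j → Wd n q f c j i ≠ t → ∀ j' ∈ S, ∀ i', i' < n j' →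
      Wd n q f c j' i' ≠ t → q j i ≠ q j' i' →
      (Jg (OffS G q S) c t).Reachable (q j i) (q j' i') →
      (x j + (cn (Wd n q f c j) t i : F2)) + (x j' + (cn (Wd n q f c j') t i' : F2)) = 1 := by
  classical
  set J := Jg (OffS G q S) c t with hJ
  have hdeg : ∀ v, ((∀ j ∈ S, ∀ i, v ≠ q j i) ∧ (nb J v).card = 2) ∨
      ∃ j ∈ S, ∃ i, i < n j ∧ v = q j i ∧ ((Wd n q f c j i ≠ t ∧ (nb J v).card = 1) ∨
      (Wd n q f c j i = t ∧ (nb J v).card = 0)) := fun v => hs.deg_cases hv.1 ht v
  have h2 : ∀ v, (nb J v).card ≤ 2 := by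
    intro v
    rcases hdeg v with ⟨_, h⟩ | ⟨j, _, i, _, _, ⟨_, h⟩ | ⟨_, h⟩⟩ <;> omega
  obtain ⟨y, y1, y2, y3⟩ := exists_partner J h2
  obtain ⟨idx, i1, i2⟩ := hs.exists_fun S (fun j _ => some j) (none : Option ι)
  obtain ⟨rk, r1, _⟩ := hs.exists_fun S (fun j i => cn (Wd n q f c j) t i) 0
  have hleaf : ∀ v, (nb J v).card = 1 →
      ∃ j ∈ S, ∃ i, i < n j ∧ v = q j i ∧ Wd n q f c j i ≠ t := by
    intro v hv'
    rcases hdeg v with ⟨_, h⟩ | ⟨j, hj, i, hi, hvi, ⟨hW, h⟩ | ⟨_, h⟩⟩
    · omega
    · exact ⟨j, hj, i, hi, hvi, hW⟩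
    · omega
  let g : V → F2 := fun v => if (nb J v).card = 1 then (rk v : F2) + (rk (y v) : F2) + 1 else 0
  have hg : ∀ v, (nb J v).card = 1 → g v = (rk v : F2) + (rk (y v) : F2) + 1 :=
    fun v h => if_pos h
  have hg0 : ∀ v, (nb J v).card ≠ 1 → g v = 0 := fun v h => if_neg h
  have key : ∃ x : Option ι → F2, ∀ v, g v = x (idx v) + x (idx (y v)) := by
    apply mem_cob_of_orth (fun v => idx v) (fun v => idx (y v)) g
    intro B hB
    let Kl : Finset V := univ.filter (fun v => (nb J v).card = 1 ∧ B v ≠ B (y v))
    have mKl : ∀ v, v ∈ Kl ↔ (nb J v).card = 1 ∧ B v ≠ B (y v) := by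
      intro v; simp [Kl]
    have yKl : ∀ v, v ∈ Kl → y v ∈ Kl := by
      intro v h
      rw [mKl] at h ⊢
      exact ⟨(y3 v h.1).2.1, by rw [y1]; exact h.2.symm⟩
    -- an even number of these leaves on every circuit
    have hev : ∀ j, (Kl.filter (fun v => idx v = some j)).card % 2 = 0 := by
      intro j
      have h1 := hB (fun o => if o = some j then 1 else 0)
      have h3 : ∑ v, B v * ((if idx v = some j then (1 : F2) else 0) +
          (if idx (y v) = some j then 1 else 0)) =
          ∑ v, (B v + B (y v)) * (if idx v = some j then (1 : F2) else 0) := by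
        simp only [mul_add, add_mul, Finset.sum_add_distrib]
        congr 1
        let e : V ≃ V := ⟨y, y, y1, y1⟩
        rw [← Equiv.sum_comp e]
        apply Finset.sum_congr rfl
        intro v _
        show B (y v) * (if idx (y (y v)) = some j then (1 : F2) else 0) = _
        rw [y1]
      rw [h3] at h1
      have h4 : ∀ v ∈ (univ : Finset V), (B v + B (y v)) * (if idx v = some j then (1 : F2) else 0) =
          if v ∈ Kl.filter (fun v => idx v = some j) then 1 else 0 := by
        intro v _
        have e : v ∈ Kl.filter (fun v => idx v = some j) ↔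
            ((nb J v).card = 1 ∧ B v ≠ B (y v)) ∧ idx v = some j := by
          rw [Finset.mem_filter, mKl]
        by_cases hv1 : (nb J v).card = 1
        · by_cases hv2 : B v = B (y v)
          · rw [if_neg (fun h => (e.1 h).1.2 hv2), hv2, f2_add_self, zero_mul]
          · rw [f2_ne hv2, one_mul]
            by_cases hv3 : idx v = some j
            · rw [if_pos hv3, if_pos (e.2 ⟨⟨hv1, hv2⟩, hv3⟩)]
            · rw [if_neg hv3, if_neg (fun h => hv3 (e.1 h).2)]
        · rw [y2 v hv1, f2_add_self, zero_mul, if_neg (fun h => hv1 (e.1 h).1.1)]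
      rw [Finset.sum_congr rfl h4, Finset.sum_ite_mem, Finset.univ_inter, Finset.sum_const,
        nsmul_eq_mul, mul_one] at h1
      exact Nat.even_iff.1 ((ZMod.natCast_eq_zero_iff_even).1 h1)
    let K : V → Prop := fun v => ∃ u ∈ Kl, J.Reachable u v
    have hK : ∀ u v, J.Adj u v → K u → K v := by
      rintro u v huv ⟨w, hw, hwu⟩
      exact ⟨w, hw, hwu.trans huv.reachable⟩
    have hKl : ∀ v, (nb J v).card = 1 → (K v ↔ v ∈ Kl) := by
      intro v hv1
      constructor
      · rintro ⟨u, hu, huv⟩
        rcases (y3 u ((mKl u).1 hu).1).2.2.2 v hv1 huv with h | h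
        · rw [h]; exact hu
        · rw [h]; exact yKl u hu
      · intro h
        exact ⟨v, h, SimpleGraph.Reachable.refl _⟩
    let U : ι → ℕ → Bool := fun j i => decide (i < n j ∧ K (q j i))
    have hU : ∀ j i, U j i = true ↔ i < n j ∧ K (q j i) := by
      intro j i; simp [U]
    have himg : ∀ j ∈ S, Kl.filter (fun v => idx v = some j) =
        ((range (n j)).filter (fun i => U j i = true ∧ Wd n q f c j i ≠ t)).image (q j) := by
      intro j hj
      ext v
      rw [Finset.mem_filter, Finset.mem_image]
      constructor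
      · rintro ⟨h1, h3⟩
        have h1' := (mKl v).1 h1
        obtain ⟨j', hj', i, hi, hvi, hW⟩ := hleaf v h1'.1
        have h4 : j' = j := by
          rw [hvi, i1 j' hj' i hi] at h3
          exact Option.some.inj h3
        subst h4
        refine ⟨i, ?_, hvi.symm⟩
        rw [Finset.mem_filter, Finset.mem_range, hU]
        refine ⟨hi, ⟨hi, ?_⟩, hW⟩
        rw [← hvi]
        exact (hKl v h1'.1).2 h1
      · rintro ⟨i, h1, h3⟩
        rw [Finset.mem_filter, Finset.mem_range, hU] at h1
        have hl := hs.leaf (c := c) (t := t) hj h1.1 h1.2.2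
        rw [← h3]
        exact ⟨(hKl _ hl).1 h1.2.1.2, i1 j hj i h1.1⟩
    have hinj : ∀ j, Set.InjOn (q j)
        ((range (n j)).filter (fun i => U j i = true ∧ Wd n q f c j i ≠ t) : Set ℕ) := by
      intro j a ha b hb hab
      rw [Finset.mem_coe, Finset.mem_filter, Finset.mem_range] at ha hb
      exact (hs.circ j).inj _ _ ha.1 hb.1 hab
    have hcU : ∀ j ∈ S, cU (Wd n q f c j) t (U j) (n j) =
        (Kl.filter (fun v => idx v = some j)).card := by
      intro j hj
      rw [cU_card, himg j hj, Finset.card_image_of_injOn (hinj j)]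
    have hsU : ∀ j ∈ S, sU (Wd n q f c j) t (U j) (n j) =
        ∑ v ∈ Kl.filter (fun v => idx v = some j), rk v := by
      intro j hj
      rw [sU_sum, himg j hj, Finset.sum_image (hinj j)]
      apply Finset.sum_congr rfl
      intro i hi
      rw [Finset.mem_filter, Finset.mem_range] at hi
      exact (r1 j hj i hi.1).symm
    obtain ⟨c', hc', hW'⟩ := hs.valid_switch hv ht K hK U (fun j _ i => hU j i) (by
      intro j hj
      rw [hcU j hj]
      exact hev j)
    have htw : ∀ j ∈ S, ((∑ v ∈ Kl.filter (fun v => idx v = some j), rk v) +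
        (Kl.filter (fun v => idx v = some j)).card / 2) % 2 = 0 := by
      intro j hj
      rw [← hsU j hj, ← hcU j hj]
      apply twist (hs.circ j).three (hs.five j) (hs.word hv.1 hj) ht _ (hv.2 j hj)
      · rw [hcU j hj]; exact hev j
      · exact hmin c hv j hj
      · rw [← hW' j hj]
        exact hmin c' hc' j hj
      · intro i hi
        rw [Bool.eq_false_iff]
        intro h
        have := ((hU j i).1 h).1
        omega
    -- the two halves of `Kl`
    let B0 : Finset V := Kl.filter (fun v => B v = 1)
    let B1 : Finset V := Kl.filter (fun v => ¬ B v = 1)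
    have mB0 : ∀ v, v ∈ B0 ↔ v ∈ Kl ∧ B v = 1 := by intro v; simp [B0]
    have mB1 : ∀ v, v ∈ B1 ↔ v ∈ Kl ∧ ¬ B v = 1 := by intro v; simp [B1]
    have hy0 : ∀ v ∈ B0, y v ∈ B1 := by
      intro v h
      rw [mB0] at h
      rw [mB1]
      refine ⟨yKl v h.1, fun h' => ?_⟩
      exact ((mKl v).1 h.1).2 (h.2.trans h'.symm)
    have hy1 : ∀ v ∈ B1, y v ∈ B0 := by
      intro v h
      rw [mB1] at h
      rw [mB0]
      refine ⟨yKl v h.1, ?_⟩
      have h5 := ((mKl v).1 h.1).2
      rcases f2_cases (B v) with h6 | h6
      · rcases f2_cases (B (y v)) with h7 | h7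
        · exact absurd (h6.trans h7.symm) h5
        · exact h7
      · exact absurd h6 h.2
    have hsum1 : ∀ F : V → ℕ, ∑ v ∈ B1, F v = ∑ v ∈ B0, F (y v) := by
      intro F
      apply Finset.sum_bij' (fun v _ => y v) (fun v _ => y v)
      · exact hy1
      · exact hy0
      · intro v _; exact y1 v
      · intro v _; exact y1 v
      · intro v _; rw [y1]
    have hsplit : ∀ F : V → ℕ, ∑ v ∈ Kl, F v = ∑ v ∈ B0, (F v + F (y v)) := by
      intro F
      rw [Finset.sum_add_distrib, ← hsum1 F]
      exact (Finset.sum_filter_add_sum_filter_not Kl (fun v => B v = 1) F).symm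
    have hcard : Kl.card = 2 * B0.card := by
      have := hsplit (fun _ => 1)
      simp only [Finset.sum_const, smul_eq_mul, mul_one] at this
      omega
    have hfib : ∀ F : V → ℕ, ∑ j ∈ S, ∑ v ∈ Kl.filter (fun v => idx v = some j), F v =
        ∑ v ∈ Kl, F v := by
      intro F
      have h1 := Finset.sum_fiberwise_of_maps_to (s := Kl) (t := S.image some) (g := idx) (by
        intro v hv1
        obtain ⟨j', hj', i, hi, hvi, hW⟩ := hleaf v ((mKl v).1 hv1).1
        rw [hvi, i1 j' hj' i hi]
        exact Finset.mem_image_of_mem _ hj') F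
      rw [Finset.sum_image (fun _ _ _ _ h => Option.some.inj h)] at h1
      exact h1
    have htot : ((∑ v ∈ Kl, rk v) + B0.card) % 2 = 0 := by
      have e1 : ∑ j ∈ S, (Kl.filter (fun v => idx v = some j)).card / 2 = B0.card := by
        have h1 : ∑ j ∈ S, (Kl.filter (fun v => idx v = some j)).card = Kl.card := by
          have := hfib (fun _ => 1)
          simp only [Finset.sum_const, smul_eq_mul, mul_one] at this
          exact this
        have h3 : ∑ j ∈ S, (Kl.filter (fun v => idx v = some j)).card =
            2 * ∑ j ∈ S, (Kl.filter (fun v => idx v = some j)).card / 2 := by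
          rw [Finset.mul_sum]
          apply Finset.sum_congr rfl
          intro j _
          have := hev j
          omega
        omega
      rw [← hfib rk, ← e1, ← Finset.sum_add_distrib, ← Nat.even_iff]
      exact Finset.even_sum _ (fun j hj => Nat.even_iff.2 (htw j hj))
    -- evaluate
    have hgy : ∀ v, (nb J v).card = 1 → g (y v) = g v := by
      intro v h
      rw [hg v h, hg (y v) (y3 v h).2.1, y1]
      ring
    have hA : ∑ v ∈ univ.filter (fun v => (nb J v).card = 1 ∧ B v = 1 ∧ B (y v) = 1), g v = 0 := by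
      apply Finset.sum_involution (fun v _ => y v)
      · intro v h
        rw [Finset.mem_filter] at h
        rw [hgy v h.2.1, f2_add_self]
      · intro v h _
        rw [Finset.mem_filter] at h
        exact (y3 v h.2.1).1
      · intro v h
        rw [Finset.mem_filter] at h ⊢
        refine ⟨mem_univ _, (y3 v h.2.1).2.1, h.2.2.2, ?_⟩
        rw [y1]; exact h.2.2.1
      · intro v _
        exact y1 v
    have hsum : ∑ v, B v * g v =
        ∑ v ∈ univ.filter (fun v => (nb J v).card = 1 ∧ B v = 1 ∧ B (y v) = 1), g v +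
        ∑ v ∈ B0, g v := by
      have e1 : ∀ v ∈ (univ : Finset V), B v * g v =
          (if ((nb J v).card = 1 ∧ B v = 1 ∧ B (y v) = 1) then g v else 0) +
          (if v ∈ B0 then g v else 0) := by
        intro v _
        by_cases h1 : (nb J v).card = 1
        · rcases f2_cases (B v) with h3 | h3
          · have e2 : v ∉ B0 := by
              rw [mB0, h3]
              exact fun h => zero_ne_one h.2
            rw [h3, zero_mul, if_neg (fun h => zero_ne_one h.2.1), if_neg e2, add_zero]
          · rw [h3, one_mul]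
            by_cases h4 : B (y v) = 1
            · have e2 : v ∉ B0 := by
                rw [mB0, mKl]
                exact fun h => h.1.2 (h3.trans h4.symm)
              rw [if_pos ⟨h1, rfl, h4⟩, if_neg e2, add_zero]
            · have e2 : v ∈ B0 := by
                rw [mB0, mKl]
                exact ⟨⟨h1, fun h => h4 (h.symm.trans h3)⟩, h3⟩
              rw [if_neg (fun h => h4 h.2.2), if_pos e2, zero_add]
        · have e2 : v ∉ B0 := by
            rw [mB0, mKl]
            exact fun h => h1 h.1.1
          rw [hg0 v h1, mul_zero, if_neg (fun h => h1 h.1), if_neg e2, add_zero]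
      rw [Finset.sum_congr rfl e1, Finset.sum_add_distrib, ← Finset.sum_filter,
        Finset.sum_ite_mem, Finset.univ_inter]
    rw [hsum, hA, zero_add]
    have e3 : ∑ v ∈ B0, g v = ((∑ v ∈ Kl, rk v + B0.card : ℕ) : F2) := by
      rw [hsplit rk, Nat.cast_add, Nat.cast_sum]
      have e4 : ∀ v ∈ B0, g v = ((rk v + rk (y v) : ℕ) : F2) + 1 := by
        intro v h
        rw [mB0, mKl] at h
        rw [hg v h.1.1]
        push_cast
        ring
      rw [Finset.sum_congr rfl e4, Finset.sum_add_distrib, Finset.sum_const, nsmul_eq_mul, mul_one]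
    rw [e3]
    exact (ZMod.natCast_eq_zero_iff_even).2 (Nat.even_iff.2 htot)
  obtain ⟨x, hx⟩ := key
  refine ⟨fun j => x (some j), ?_⟩
  intro j hj i hi hW j' hj' i' hi' hW' hne hr
  have hl := hs.leaf (c := c) (t := t) hj hi hW
  have hl' := hs.leaf (c := c) (t := t) hj' hi' hW'
  have hy : y (q j i) = q j' i' := by
    rcases (y3 _ hl).2.2.2 _ hl' hr with h | h
    · exact absurd h.symm hne
    · exact h.symm
  have h1 := hx (q j i)
  rw [hg _ hl, hy, i1 j hj i hi, i1 j' hj' i' hi', r1 j hj i hi, r1 j' hj' i' hi'] at h1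
  have h3 : ∀ a b c d : F2, a + b + 1 = c + d → (c + a) + (d + b) = 1 := by decide
  exact h3 _ _ _ _ h1

end

end Pool.Agent.Y408.OC
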